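import Pool.Agent.helper82.KN.Spec

/-!
# Row kn:MDA
-/

set_option autoImplicit false

open Finset Polynomial

namespace Pool.Agent.KN

theorem MDA : MDA_stmt := by
  intro V _ _ A h
  have hAJ : A * JJ V = (20 : ℤ) • JJ V := by
    ext u v
    rw [Matrix.mul_apply, Matrix.smul_apply]
    have e : ∀ x, A u x * JJ V x v = A u x := fun x => by
      rw [show JJ V x v = 1 from rfl, mul_one]
    rw [sum_congr rfl fun x _ => e x, h.row, show JJ V u v = 1 from rfl]
    rfl
  have hcol : ∀ v, ∑ x, A x v = 20 := fun v => by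
    rw [sum_congr rfl fun x _ => h.symm x v, h.row]
  have hJA : JJ V * A = (20 : ℤ) • JJ V := by
    ext u v
    rw [Matrix.mul_apply, Matrix.smul_apply]
    have e : ∀ x, JJ V u x * A x v = A x v := fun x => by
      rw [show JJ V u x = 1 from rfl, one_mul]
    rw [sum_congr rfl fun x _ => e x, hcol, show JJ V u v = 1 from rfl]
    rfl
  have hJJ : JJ V * JJ V = (84 : ℤ) • JJ V := by
    ext u v
    rw [Matrix.mul_apply, Matrix.smul_apply]
    have e : ∀ x, JJ V u x * JJ V x v = 1 := fun x => rfl
    rw [sum_congr rfl fun x _ => e x, sum_const, card_univ, h.card, show JJ V u v = 1 from rfl]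
    rfl
  have hc : A * (A * A) = (120 : ℤ) • JJ V - (7 : ℤ) • (A * A) + (34 : ℤ) • A + (40 : ℤ) • 1 := by
    rw [← h.cub, Matrix.mul_assoc]
    abel
  have ham : A * MM A = (-10 : ℤ) • MM A := by
    unfold MM
    rw [Matrix.mul_sub, Matrix.mul_sub, Matrix.mul_sub, Matrix.mul_smul, Matrix.mul_smul,
      Matrix.mul_smul, Matrix.mul_one, hAJ, hc]
    module
  have hjm : JJ V * MM A = 0 := by
    unfold MM
    rw [Matrix.mul_sub, Matrix.mul_sub, Matrix.mul_sub, Matrix.mul_smul, Matrix.mul_smul,
      Matrix.mul_smul, Matrix.mul_one, ← Matrix.mul_assoc, hJA, Matrix.smul_mul, hJA, hJJ]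
    module
  have hmm : MM A * MM A = (126 : ℤ) • MM A := by
    have e : MM A * MM A = A * (A * MM A) - (3 : ℤ) • (A * MM A) - (4 : ℤ) • MM A -
        (4 : ℤ) • (JJ V * MM A) := by
      conv_lhs => enter [1]; unfold MM
      rw [Matrix.sub_mul, Matrix.sub_mul, Matrix.sub_mul, Matrix.smul_mul, Matrix.smul_mul,
        Matrix.smul_mul, Matrix.one_mul, Matrix.mul_assoc]
    rw [e, hjm, ham, Matrix.mul_smul, ham]
    module
  have hsq : ∀ u v, (A * A) u v = MM A u v + 3 * A u v + (if u = v then 4 else 0) + 4 := by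
    intro u v
    unfold MM
    simp only [Matrix.sub_apply, Matrix.smul_apply, Matrix.one_apply, smul_eq_mul]
    rw [show JJ V u v = 1 from rfl]
    split_ifs <;> ring
  have hA2s : ∀ u v, (A * A) u v = (A * A) v u := by
    intro u v
    rw [Matrix.mul_apply, Matrix.mul_apply]
    refine sum_congr rfl fun x _ => ?_
    rw [h.symm u x, h.symm x v, mul_comm]
  have hms : ∀ u v, MM A u v = MM A v u := by
    intro u v
    have h1 := hsq u v
    have h2 := hsq v u
    have h3 := hA2s u v
    have h4 := h.symm u v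
    by_cases huv : u = v
    · rw [huv]
    · rw [if_neg huv] at h1
      rw [if_neg (Ne.symm huv)] at h2
      linarith
  have hd2 : ∀ u, (A * A) u u = 20 := by
    intro u
    rw [Matrix.mul_apply, ← h.row u]
    refine sum_congr rfl fun x _ => ?_
    rw [h.symm x u]
    rcases h.zo u x with h1 | h1 <;> rw [h1] <;> rfl
  have hmd : ∀ u, MM A u u = 12 := by
    intro u
    have h1 := hsq u u
    rw [hd2, h.diag, if_pos rfl] at h1
    linarith
  have hmr : ∀ u, ∑ v, MM A u v = 0 := by
    intro u
    have h1 : (JJ V * MM A) u u = 0 := by rw [hjm]; rfl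
    rw [Matrix.mul_apply] at h1
    rw [← h1]
    refine sum_congr rfl fun x _ => ?_
    rw [show JJ V u x = 1 from rfl, one_mul, hms]
  refine ⟨h.card, h.symm, h.zo, h.diag, h.row, ?_, hms, hmd, hmr, hsq, hmm, ham, ?_⟩
  · intro u v huv
    by_contra hcon
    push Not at hcon
    obtain ⟨h1, h2, h3⟩ := hcon
    have h4 := congrFun (congrFun h.cub u) v
    simp only [Matrix.sub_apply, Matrix.add_apply, Matrix.smul_apply, Matrix.one_apply_ne huv, h1,
      h2, h3, smul_eq_mul] at h4
    rw [show JJ V u v = 1 from rfl] at h4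
    norm_num at h4
  · intro u
    have h1 : (MM A * MM A) u u = 1512 := by
      rw [hmm, Matrix.smul_apply, hmd]
      rfl
    rw [← h1, Matrix.mul_apply]
    refine sum_congr rfl fun x _ => ?_
    rw [hms x u, pow_two]

end Pool.Agent.KN
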