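import Pool.Agent.helper82.KN.Spec

/-!
# Row kn:RD2
-/

set_option autoImplicit false

open Finset Polynomial

namespace Pool.Agent.KN

variable {V : Type} [Fintype V] [DecidableEq V]

/-- indicator of `r = -1` -/
def RD2_a (r : V → V → ℤ) (u v : V) : ℤ := if r u v = -1 then 1 else 0

/-- indicator of `r = 1` -/
def RD2_b (r : V → V → ℤ) (u v : V) : ℤ := if r u v = 1 then 1 else 0

/-- the function `P` -/
def RD2_p (r : V → V → ℤ) (u v : V) : ℤ :=
  252 * (if u = v then 1 else 0) - 42 * r u v - 63 * RD2_a r u v + 12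

theorem RD2_val {r : V → V → ℤ} (h : RBas r) (u v : V) :
    (u = v ∧ r u v = 2) ∨ (u ≠ v ∧ r u v = -1) ∨ (u ≠ v ∧ r u v = 0) ∨ (u ≠ v ∧ r u v = 1) := by
  by_cases huv : u = v
  · left
    refine ⟨huv, ?_⟩
    rw [huv]
    exact h.diag v
  · right
    rcases h.val u v huv with h1 | h1 | h1
    · exact Or.inl ⟨huv, h1⟩
    · exact Or.inr (Or.inl ⟨huv, h1⟩)
    · exact Or.inr (Or.inr ⟨huv, h1⟩)

theorem RD2_split {r : V → V → ℤ} (h : RBas r) (u v : V) :
    r u v = 2 * (if u = v then 1 else 0) - RD2_a r u v + RD2_b r u v := by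
  unfold RD2_a RD2_b
  rcases RD2_val h u v with ⟨h1, h2⟩ | ⟨h1, h2⟩ | ⟨h1, h2⟩ | ⟨h1, h2⟩ <;> rw [h2] <;>
    simp [h1]

theorem RD2_suma (r : V → V → ℤ) (w : V) (f : V → ℤ) :
    ∑ x, RD2_a r w x * f x = ∑ x ∈ ad r w, f x := by
  unfold RD2_a ad
  rw [sum_filter]
  refine sum_congr rfl fun x _ => ?_
  split_ifs <;> simp

theorem RD2_sumb (r : V → V → ℤ) (w : V) (f : V → ℤ) :
    ∑ x, RD2_b r w x * f x = ∑ x ∈ bd r w, f x := by
  unfold RD2_b bd
  rw [sum_filter]
  refine sum_congr rfl fun x _ => ?_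
  split_ifs <;> simp

theorem RD2_asymm {r : V → V → ℤ} (h : RBas r) (u v : V) : RD2_a r u v = RD2_a r v u := by
  unfold RD2_a
  rw [h.symm u v]

theorem RD2_bsymm {r : V → V → ℤ} (h : RBas r) (u v : V) : RD2_b r u v = RD2_b r v u := by
  unfold RD2_b
  rw [h.symm u v]

theorem RD2_na {r : V → V → ℤ} (h : RBas r) (u : V) : ∑ x, RD2_a r u x = 20 := by
  have h1 := RD2_suma r u (fun _ => 1)
  simp only [mul_one, sum_const, h.na u] at h1
  rw [h1]
  rfl

theorem RD2_nb {r : V → V → ℤ} (h : RBas r) (u : V) : ∑ x, RD2_b r u x = 18 := by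
  have h1 := RD2_sumb r u (fun _ => 1)
  simp only [mul_one, sum_const, h.nb u] at h1
  rw [h1]
  rfl

theorem RD2_rsum {r : V → V → ℤ} (h : RBas r) (u : V) : ∑ x, r u x = 0 := by
  rw [sum_congr rfl fun x _ => RD2_split h u x, sum_add_distrib, sum_sub_distrib, RD2_na h,
    RD2_nb h, ← mul_sum]
  simp

theorem RD2_aa {r : V → V → ℤ} (h : RBas r)
    (h0 : ∀ u v, r u v = 0 → (ad r u ∩ ad r v).card = 4)
    (h1 : ∀ u v, r u v = -1 → (ad r u ∩ ad r v).card = 1) (u v : V) :
    ∑ x, RD2_a r u x * RD2_a r x v =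
      6 * r u v + 3 * RD2_a r u v + 4 * (if u = v then 1 else 0) + 4 := by
  have e : ∑ x, RD2_a r u x * RD2_a r x v = ((ad r u ∩ ad r v).card : ℤ) := by
    rw [RD2_suma, card_eq_sum_ones, Nat.cast_sum, ← filter_mem_eq_inter, sum_filter]
    refine sum_congr rfl fun x _ => ?_
    rw [RD2_asymm h]
    unfold RD2_a ad
    simp only [mem_filter, mem_univ, true_and]
    split_ifs <;> simp
  rw [e]
  rcases RD2_val h u v with ⟨h2, h3⟩ | ⟨h2, h3⟩ | ⟨h2, h3⟩ | ⟨h2, h3⟩
  · rw [h2, inter_self, h.na, h.diag]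
    unfold RD2_a
    rw [h.diag]
    norm_num
  · rw [h1 u v h3, h3]
    unfold RD2_a
    rw [h3, if_neg h2]
    norm_num
  · rw [h0 u v h3, h3]
    unfold RD2_a
    rw [h3, if_neg h2]
    norm_num
  · rw [h.mu u v h3, h3]
    unfold RD2_a
    rw [h3, if_neg h2]
    norm_num

theorem RD2_pp {r : V → V → ℤ} (h : RBas r)
    (h0 : ∀ u v, r u v = 0 → (ad r u ∩ ad r v).card = 4)
    (h1 : ∀ u v, r u v = -1 → (ad r u ∩ ad r v).card = 1) (u v : V) :
    ∑ x, RD2_p r u x * RD2_p r v x = 315 * RD2_p r u v := by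
  let R : Matrix V V ℤ := Matrix.of fun u v => r u v
  let a : Matrix V V ℤ := Matrix.of fun u v => RD2_a r u v
  have hRR : R * R = (21 : ℤ) • R := by
    ext u v
    rw [Matrix.mul_apply, Matrix.smul_apply]
    change ∑ x, r u x * r x v = 21 * r u v
    rw [← h.sq]
    exact sum_congr rfl fun x _ => by rw [h.symm x v]
  have haR : a * R = (-10 : ℤ) • R := by
    ext u v
    rw [Matrix.mul_apply, Matrix.smul_apply]
    change ∑ x, RD2_a r u x * r x v = -10 * r u v
    rw [RD2_suma, h.symm u v, ← h.suma]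
    exact sum_congr rfl fun x _ => h.symm x v
  have hRa : R * a = (-10 : ℤ) • R := by
    ext u v
    rw [Matrix.mul_apply, Matrix.smul_apply]
    change ∑ x, r u x * RD2_a r x v = -10 * r u v
    rw [← h.suma, ← RD2_suma]
    exact sum_congr rfl fun x _ => by rw [RD2_asymm h, mul_comm]
  have hRJ : R * JJ V = 0 := by
    ext u v
    rw [Matrix.mul_apply]
    change ∑ x, r u x * 1 = 0
    rw [sum_congr rfl fun x _ => mul_one _, RD2_rsum h]
  have hJR : JJ V * R = 0 := by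
    ext u v
    rw [Matrix.mul_apply]
    change ∑ x, 1 * r x v = 0
    rw [sum_congr rfl fun x _ => (one_mul _).trans (h.symm x v), RD2_rsum h]
  have haJ : a * JJ V = (20 : ℤ) • JJ V := by
    ext u v
    rw [Matrix.mul_apply]
    change ∑ x, RD2_a r u x * 1 = 20 * 1
    rw [sum_congr rfl fun x _ => mul_one _, RD2_na h]
    rfl
  have hJa : JJ V * a = (20 : ℤ) • JJ V := by
    ext u v
    rw [Matrix.mul_apply]
    change ∑ x, 1 * RD2_a r x v = 20 * 1
    rw [sum_congr rfl fun x _ => (one_mul _).trans (RD2_asymm h x v), RD2_na h]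
    rfl
  have hJJ : JJ V * JJ V = (84 : ℤ) • JJ V := by
    ext u v
    rw [Matrix.mul_apply, Matrix.smul_apply]
    have e : ∀ x, JJ V u x * JJ V x v = 1 := fun x => rfl
    rw [sum_congr rfl fun x _ => e x, sum_const, card_univ, h.card, show JJ V u v = 1 from rfl]
    rfl
  have haa : a * a = (6 : ℤ) • R + (3 : ℤ) • a + (4 : ℤ) • 1 + (4 : ℤ) • JJ V := by
    ext u v
    rw [Matrix.mul_apply]
    simp only [Matrix.add_apply, Matrix.smul_apply, Matrix.one_apply, smul_eq_mul]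
    change ∑ x, RD2_a r u x * RD2_a r x v =
      6 * r u v + 3 * RD2_a r u v + 4 * (if u = v then 1 else 0) + 4 * 1
    rw [RD2_aa h h0 h1, mul_one]
  let P : Matrix V V ℤ := (252 : ℤ) • 1 - (42 : ℤ) • R - (63 : ℤ) • a + (12 : ℤ) • JJ V
  have hP : P * P = (315 : ℤ) • P := by
    have e : P * P = (252 : ℤ) • P - (42 : ℤ) • (R * P) - (63 : ℤ) • (a * P) +
        (12 : ℤ) • (JJ V * P) := by
      conv_lhs => enter [1]; unfold P
      rw [Matrix.add_mul, Matrix.sub_mul, Matrix.sub_mul, Matrix.smul_mul, Matrix.smul_mul,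
        Matrix.smul_mul, Matrix.smul_mul, Matrix.one_mul]
    have e1 : R * P = (252 : ℤ) • R - (42 : ℤ) • (R * R) - (63 : ℤ) • (R * a) +
        (12 : ℤ) • (R * JJ V) := by
      unfold P
      rw [Matrix.mul_add, Matrix.mul_sub, Matrix.mul_sub, Matrix.mul_smul, Matrix.mul_smul,
        Matrix.mul_smul, Matrix.mul_smul, Matrix.mul_one]
    have e2 : a * P = (252 : ℤ) • a - (42 : ℤ) • (a * R) - (63 : ℤ) • (a * a) +
        (12 : ℤ) • (a * JJ V) := by
      unfold P
      rw [Matrix.mul_add, Matrix.mul_sub, Matrix.mul_sub, Matrix.mul_smul, Matrix.mul_smul,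
        Matrix.mul_smul, Matrix.mul_smul, Matrix.mul_one]
    have e3 : JJ V * P = (252 : ℤ) • JJ V - (42 : ℤ) • (JJ V * R) - (63 : ℤ) • (JJ V * a) +
        (12 : ℤ) • (JJ V * JJ V) := by
      unfold P
      rw [Matrix.mul_add, Matrix.mul_sub, Matrix.mul_sub, Matrix.mul_smul, Matrix.mul_smul,
        Matrix.mul_smul, Matrix.mul_smul, Matrix.mul_one]
    rw [e, e1, e2, e3, hRR, haR, hRa, hRJ, hJR, haJ, hJa, hJJ, haa]
    unfold P
    module
  have hPe : ∀ x y, P x y = RD2_p r x y := by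
    intro x y
    unfold P RD2_p
    simp only [Matrix.add_apply, Matrix.sub_apply, Matrix.smul_apply, Matrix.one_apply,
      smul_eq_mul]
    rw [show JJ V x y = 1 from rfl, mul_one]
    rfl
  have hps : ∀ x y, RD2_p r x y = RD2_p r y x := by
    intro x y
    unfold RD2_p
    rw [h.symm x y, RD2_asymm h x y]
    simp only [eq_comm]
  have h2 := congrFun (congrFun hP u) v
  rw [Matrix.mul_apply, Matrix.smul_apply] at h2
  rw [hPe] at h2
  rw [← smul_eq_mul, ← h2]
  refine sum_congr rfl fun x _ => ?_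
  rw [hPe, hPe, hps v x]

theorem RD2_rp {r : V → V → ℤ} (h : RBas r) (u : V) : ∑ x, r u x ^ 2 * RD2_p r u x = 0 := by
  have e : ∀ x, r u x ^ 2 * RD2_p r u x =
      720 * (if u = x then 1 else 0) - 9 * RD2_a r u x - 30 * RD2_b r u x := by
    intro x
    unfold RD2_p RD2_a RD2_b
    rcases RD2_val h u x with ⟨h2, h3⟩ | ⟨h2, h3⟩ | ⟨h2, h3⟩ | ⟨h2, h3⟩ <;> rw [h3] <;>
      simp [h2]
  rw [sum_congr rfl fun x _ => e x, sum_sub_distrib, sum_sub_distrib, ← mul_sum, ← mul_sum,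
    ← mul_sum, RD2_na h, RD2_nb h]
  simp

theorem RD2_L0 {r : V → V → ℤ} (h : RBas r) (c : V → ℤ) :
    ∑ v, (∑ x, r v x * c x) ^ 2 = ∑ x, ∑ y, c x * c y * (21 * r x y) := by
  have e : ∀ v, (∑ x, r v x * c x) ^ 2 = ∑ x, ∑ y, (r v x * c x) * (r v y * c y) := by
    intro v
    rw [pow_two, sum_mul_sum]
  rw [sum_congr rfl fun v _ => e v, sum_comm]
  refine sum_congr rfl fun x _ => ?_
  rw [sum_comm]
  refine sum_congr rfl fun y _ => ?_
  rw [← h.sq, mul_sum]
  refine sum_congr rfl fun v _ => ?_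
  rw [h.symm v x, h.symm v y]
  ring

theorem RD2_L1 {r : V → V → ℤ} (h : RBas r) (p : V → ℤ) :
    ∑ u, ∑ v, (∑ x, r u x * r v x * p x) ^ 2 = ∑ x, ∑ y, (21 * r x y) ^ 2 * (p x * p y) := by
  have e : ∀ u, ∑ v, (∑ x, r u x * r v x * p x) ^ 2 =
      ∑ x, ∑ y, (r u x * p x) * (r u y * p y) * (21 * r x y) := by
    intro u
    rw [← RD2_L0 h]
    refine sum_congr rfl fun v _ => ?_
    congr 1
    refine sum_congr rfl fun x _ => ?_
    ring
  rw [sum_congr rfl fun u _ => e u, sum_comm]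
  refine sum_congr rfl fun x _ => ?_
  rw [sum_comm]
  refine sum_congr rfl fun y _ => ?_
  have e2 : ∑ u, r u x * r u y = 21 * r x y := by
    rw [← h.sq]
    refine sum_congr rfl fun u _ => ?_
    rw [h.symm u x, h.symm u y]
  calc ∑ u, (r u x * p x) * (r u y * p y) * (21 * r x y)
      = ∑ u, (r u x * r u y) * (p x * p y * (21 * r x y)) := sum_congr rfl fun u _ => by ring
    _ = (∑ u, r u x * r u y) * (p x * p y * (21 * r x y)) := by rw [sum_mul]
    _ = (21 * r x y) ^ 2 * (p x * p y) := by rw [e2]; ring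

theorem RD2 : RD2_stmt := by
  intro V _ _ r h h0 h1
  have hS : ∑ w, ∑ u, ∑ v, (∑ x, r u x * r v x * RD2_p r x w) ^ 2 = 0 := by
    rw [sum_congr rfl fun w _ => RD2_L1 h (fun x => RD2_p r x w), sum_comm]
    refine sum_eq_zero fun x _ => ?_
    rw [sum_comm]
    have e : ∀ y, ∑ w, (21 * r x y) ^ 2 * (RD2_p r x w * RD2_p r y w) =
        (441 * 315) * (r x y ^ 2 * RD2_p r x y) := by
      intro y
      rw [← mul_sum, RD2_pp h h0 h1]
      ring
    rw [sum_congr rfl fun y _ => e y, ← mul_sum, RD2_rp h, mul_zero]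
  have hK : ∀ w u v, ∑ x, r u x * r v x * RD2_p r x w = 0 := by
    intro w u v
    have n1 := (sum_eq_zero_iff_of_nonneg (fun w _ => sum_nonneg fun u _ => sum_nonneg
      fun v _ => sq_nonneg _)).1 hS w (mem_univ _)
    have n2 := (sum_eq_zero_iff_of_nonneg (fun u _ => sum_nonneg
      fun v _ => sq_nonneg _)).1 n1 u (mem_univ _)
    have n3 := (sum_eq_zero_iff_of_nonneg (fun v _ => sq_nonneg _)).1 n2 v (mem_univ _)
    exact pow_eq_zero_iff (two_ne_zero) |>.1 n3
  intro w u v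
  have h2 := hK w u v
  have e : ∀ x, r u x * r v x * RD2_p r x w = 12 * (r u x * r v x) +
      168 * ((if w = x then 1 else 0) * (r u x * r v x)) - 21 * (RD2_a r w x * (r u x * r v x)) -
      42 * (RD2_b r w x * (r u x * r v x)) := by
    intro x
    have h3 := RD2_split h x w
    unfold RD2_p
    rw [RD2_asymm h w x, RD2_bsymm h w x]
    have h4 : (if w = x then (1 : ℤ) else 0) = if x = w then 1 else 0 := by
      simp only [eq_comm]
    rw [h4]
    generalize RD2_a r x w = α at *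
    generalize RD2_b r x w = β at *
    generalize (if x = w then (1 : ℤ) else 0) = δ at *
    rw [h3]
    ring
  rw [sum_congr rfl fun x _ => e x, sum_sub_distrib, sum_sub_distrib, sum_add_distrib, ← mul_sum,
    ← mul_sum, ← mul_sum, ← mul_sum, RD2_suma, RD2_sumb, h.sq] at h2
  have h5 : ∑ x, (if w = x then (1 : ℤ) else 0) * (r u x * r v x) = r u w * r v w := by
    simp
  rw [h5] at h2
  linarith

end Pool.Agent.KN
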